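import Pool.Agent.U133.UB.Main

set_option autoImplicit false

/-!
# MP_e299c6_nt, Q2: every level set of the smallest univoque base function is closed

For `x > 0` let `Ux x` be the set of the bases `q ∈ (1, 2]` in which `x` has exactly one expansion
with digits `0`, `1`, and `q_s(x) = inf Ux x`. The starting file `ClosedLevelSet` shows that the level
set of `q_s` at the Komornik-Loreti constant is closed (Q1). Here: all the level sets are closed (Q2).

Proof. Let `y_k → x` with `q_s(y_k) = Q`, `y_k ≠ x`, and let `D_k` be expansions of `y_k` in the base `Q`
which satisfy the conditions for unique expansions weakly, with a limit `D`.

* `q_s(x) ≥ Q`: for infinitely many `y_k < x` this is easy. For infinitely many `y_k > x` we need that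
  `q_s` is upper semicontinuous from the right (`right_usc`). A unique expansion `s` of `x` is unique in
  a smaller base, or it is a limit from above of expansions which are unique in the same base: we
  replace the tail of `s` at a far record position by the tail of `s` at another record position.
* `q_s(x) ≤ Q`: if infinitely many `y_k` are larger than `x`, then we use the `D_k` in bases slightly
  above `Q`. If infinitely many `y_k` are smaller, then no tail of `D` after a digit `1` has the smallest
  possible value, and either `D` is a unique expansion or some tail of `D` after a digit `0` has the value
  `1`. This tail may be periodic (for bases in the closure of the set of univoque bases but not in it).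
  We replace it by a periodic sequence slightly below it, and obtain an expansion of `x` which is unique
  in a base smaller than `Q` (`lower_base`).
-/

namespace Pool.Agent.Results.MP_e299c6_nt.AllLevelSetsClosed

open Pool.Agent.R341.Uni

/-- **Every level set of the smallest univoque base function is closed in `(0, ∞)`.** -/
theorem result : ∀ q : ℝ, 1 < q → q ≤ 2 →
    IsClosed {x : Set.Ioi (0 : ℝ) | sInf (Ux (x : ℝ)) = q} :=
  fun _ hq1 hq2 => Pool.Agent.U133.UB.closed_all hq1 hq2

end Pool.Agent.Results.MP_e299c6_nt.AllLevelSetsClosed
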